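import Mathlib
import Pool.Agent.Helper29.MDefs
import Pool.Agent.Helper29.CovCover
import Pool.Agent.Helper29.CovMem
import Pool.Agent.Helper29.CovNV
import Pool.Agent.Helper29.Hol3

set_option autoImplicit false

open Pool.Agent.Helper29

namespace Pool.Agent.Results.MP_7495cd_al.CoveringProperty

/-- The covering property of the lattice of varieties of m-groups: every variety of m-groups
other than the variety of all m-groups is covered by some variety of m-groups. -/
theorem result (Y : Set MGroup) (hY : IsVariety Y) (hne : Y ≠ Set.univ) :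
    ∃ X : Set MGroup, IsVariety X ∧ Y ⊂ X ∧
      ∀ Z : Set MGroup, IsVariety Z → Y ⊆ Z → Z ⊆ X → Z = Y ∨ Z = X := by
  classical
  obtain ⟨E, rfl⟩ := hY
  by_cases hall : ∀ (n : ℕ) (G : MGroup), dd^[n] (⊤ : Subgroup G.carrier) = ⊥ → G ∈ Models E
  · -- the normal-valued case
    have huniv : IsVariety Set.univ := by
      refine ⟨∅, ?_⟩
      symm
      rw [Set.eq_univ_iff_forall]
      intro G e he
      exact absurd he (Set.notMem_empty e)
    refine ⟨Set.univ, huniv, ?_, ?_⟩
    · rw [Set.ssubset_univ_iff]
      exact hne
    · rintro Z ⟨EZ, rfl⟩ h1 _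
      by_cases h : Models EZ ⊆ Models E
      · exact Or.inl (Set.Subset.antisymm h h1)
      · right
        obtain ⟨G, hG, hGE⟩ := Set.not_subset.mp h
        have hnv : ¬ NV G.carrier := fun law =>
          hGE (nv_mem_of (fun n => hall n _ (MWM.depth n)) law)
        rw [Set.eq_univ_iff_forall]
        exact holland hG hnv
  · -- the case of finite depth
    push Not at hall
    have hmin := Nat.find_spec hall
    have hlow : ∀ k < Nat.find hall, ∀ G : MGroup,
        dd^[k] (⊤ : Subgroup G.carrier) = ⊥ → G ∈ Models E := by
      intro k hk G hG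
      by_contra hcon
      exact Nat.find_min hall hk ⟨G, hG, hcon⟩
    generalize hn : Nat.find hall = n at hmin hlow
    clear hn
    obtain ⟨G₀, hG₀, hG₀E⟩ := hmin
    cases n with
    | zero =>
      exfalso
      apply hG₀E
      intro e _ v
      have h : ∀ x : G₀.carrier, x = 1 := by
        intro x
        have h1 : x ∈ (⊤ : Subgroup G₀.carrier) := Subgroup.mem_top x
        have h2 : (⊤ : Subgroup G₀.carrier) = ⊥ := hG₀
        rw [h2] at h1
        exact Subgroup.mem_bot.mp h1
      rw [h (G₀.eval v e.1), h (G₀.eval v e.2)]
    | succ m =>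
      have hm := hlow m (Nat.lt_succ_self m)
      by_cases hS : ∀ P : PS, TSg P (ρZ P) (m + 1) ∈ Models E
      · -- the doubled case
        obtain ⟨P, hP⟩ : ∃ P : PS, MTg P (ρZ P) (m + 1) ∉ Models E := by
          by_contra hcon
          push Not at hcon
          exact hG₀E (mem_of_dbl (m + 1) hcon hG₀)
        refine crit_cover hP ?_
        intro K hK v hv hKE
        refine crit_dbl P m K hK v hv ?_
        intro hcon
        exact hKE (mem_of_sym m hS hcon)
      · -- the symmetric case
        push Not at hS
        obtain ⟨P, hP⟩ := hS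
        refine crit_cover hP ?_
        intro K hK v hv hKE
        refine crit_sym P m K hK v hv ?_
        intro hcon
        exact hKE (hm K hcon)

end Pool.Agent.Results.MP_7495cd_al.CoveringProperty
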